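import Mathlib

namespace Pool.Agent.H.MP_628479_al
open PowerSeries Finset

abbrev R := MvPolynomial ℕ (ZMod 2)

def wt : ℕ → ℕ := fun k => k + 1

abbrev WH (p : R) (n : ℕ) : Prop := MvPolynomial.IsWeightedHomogeneous wt p n

def Hom (f : PowerSeries R) : Prop := ∀ n, WH (coeff n f) n

theorem Hom.mul {f g : PowerSeries R} (hf : Hom f) (hg : Hom g) : Hom (f * g) := by
  intro n
  rw [coeff_mul]
  refine MvPolynomial.IsWeightedHomogeneous.sum _ _ _ fun p hp => ?_
  rw [← mem_antidiagonal.1 hp]
  exact (hf _).mul (hg _)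

theorem Hom.add {f g : PowerSeries R} (hf : Hom f) (hg : Hom g) : Hom (f + g) := fun n => by
  rw [map_add]; exact (hf n).add (hg n)

theorem Hom.inv {f g : PowerSeries R} (hf : Hom f) (h0 : coeff 0 f = 1) (h : f * g = 1) :
    Hom g := by
  intro n
  induction n using Nat.strong_induction_on with
  | _ n ih =>
    have h1 := congrArg (coeff n) h
    rcases n with _ | n
    · simp only [coeff_zero_eq_constantCoeff, map_mul, map_one] at h1 h0 ⊢
      rw [h0, one_mul] at h1
      rw [h1]; exact MvPolynomial.isWeightedHomogeneous_one _ _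
    · rw [coeff_mul, Finset.Nat.antidiagonal_succ, sum_cons, sum_map, h0, one_mul, coeff_one,
        if_neg (by omega)] at h1
      rw [eq_neg_of_add_eq_zero_left h1]
      refine MvPolynomial.IsWeightedHomogeneous.neg ?_
      refine MvPolynomial.IsWeightedHomogeneous.sum _ _ _ fun p hp => ?_
      have hp' := mem_antidiagonal.1 hp
      have := (hf (p.1 + 1)).mul (ih p.2 (by omega))
      rw [show p.1 + 1 + p.2 = n + 1 by omega] at this
      exact this

theorem two0 : (2 : R) = 0 := CharTwo.two_eq_zero
theorem two0' : (2 : PowerSeries R) = 0 := by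
  rw [show (2 : PowerSeries R) = C (2 : R) from (map_ofNat C 2).symm, two0, map_zero]

theorem cast_par (n : ℕ) : (n : R) = if n % 2 = 0 then 0 else 1 := by
  rw [← Nat.div_add_mod n 2]
  push_cast
  rw [two0]
  rcases Nat.mod_two_eq_zero_or_one n with h | h <;> simp [h, Nat.add_mod]

theorem coeff_od (f : PowerSeries R) (n : ℕ) :
    coeff n (X * d⁄dX R f) = if n % 2 = 0 then 0 else coeff n f := by
  rcases n with _ | n
  · simp
  · rw [coeff_succ_X_mul, coeff_derivative, ← Nat.cast_succ, cast_par]
    split_ifs <;> simp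

theorem coeff_mem {J : Ideal R} {f : PowerSeries R} (hf : ∀ n, coeff n f ∈ J) (g : PowerSeries R)
    (n : ℕ) : coeff n (f * g) ∈ J := by
  rw [coeff_mul]
  exact J.sum_mem fun p _ => J.mul_mem_right _ (hf _)

theorem coeff_sq (f : PowerSeries R) (n : ℕ) : coeff (2 * n) (f * f) = coeff n f ^ 2 := by
  rw [coeff_mul, ← Finset.add_sum_erase _ _ (a := (n, n)) (HasAntidiagonal.mem_antidiagonal.2 (two_mul n).symm),
    Finset.sum_involution (fun p _ => p.swap), add_zero, sq]
  · intro p _
    simp only [Prod.fst_swap, Prod.snd_swap]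
    linear_combination (coeff p.1 f * coeff p.2 f) * two0
  · intro p hp _ h
    simp only [mem_erase, HasAntidiagonal.mem_antidiagonal] at hp
    have h1 := congrArg Prod.fst h
    simp only [Prod.fst_swap] at h1
    exact hp.1 (Prod.ext (by simp only; omega) (by simp only; omega))
  · intro p hp
    simp only [mem_erase, HasAntidiagonal.mem_antidiagonal, Prod.fst_swap, Prod.snd_swap] at hp ⊢
    refine ⟨fun h => hp.1 ?_, by omega⟩
    have := congrArg Prod.swap h
    simpa using this
  · intro p _; rfl

noncomputable def e : ℕ → R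
  | 0 => 1
  | k + 1 => MvPolynomial.X k

structure Data (w : R →ₐ[ZMod 2] R) (x δ : ℕ → R) : Prop where
  hx : ∀ j, WH (x j) (j + 1)
  hδ : ∀ j, WH (δ j) (2 * (j + 1))
  inv : ∀ r, w (w r) = r
  ev : ∀ j, j % 2 = 0 → w (x j) = x j
  od : ∀ j, w (x (2 * j + 1)) = x (2 * j + 1) + δ j
  sq : ∀ j, x j ^ 2 ∈ Ideal.span (Set.range δ)
  dd : ∀ r, r + w r ∈ Ideal.span (Set.range δ)
  gen : Algebra.adjoin (ZMod 2) (Set.range x) = ⊤

theorem data (w : R →ₐ[ZMod 2] R) (H : PowerSeries R) (hEH : mk e * H = 1)
    (hw : ∀ k, w (e k) = coeff k H) : ∃ x δ, Data w x δ := by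
  set E := mk e with hE
  let φ : PowerSeries R →+* PowerSeries R := PowerSeries.map (w : R →+* R)
  have hφ : ∀ f n, coeff n (φ f) = w (coeff n f) := fun f n => by simp [φ]
  have φE : φ E = H := by ext1 n; rw [hφ, hE, coeff_mk, hw]
  have φH : φ H = E := by
    have := congrArg φ hEH
    rw [map_mul, φE, map_one] at this
    linear_combination (-φ H) * hEH + E * this
  have hinv : ∀ r, w (w r) = r := by
    have : w.comp w = AlgHom.id _ _ := by
      apply MvPolynomial.algHom_ext
      intro k
      have := congrArg (coeff (k + 1)) φH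
      rw [hφ, ← hw, hE, coeff_mk] at this
      simpa [e] using this
    intro r; exact AlgHom.congr_fun this r
  have HE : Hom E := by
    intro n; rw [hE, coeff_mk]
    rcases n with _ | n
    · exact MvPolynomial.isWeightedHomogeneous_one _ _
    · exact MvPolynomial.isWeightedHomogeneous_X _ wt n
  have E0c : coeff 0 E = 1 := by simp [hE, e]
  have HH : Hom H := HE.inv E0c hEH
  set O : PowerSeries R → PowerSeries R := fun f => X * d⁄dX R f with hO
  have Oc : ∀ f n, coeff n (O f) = if n % 2 = 0 then 0 else coeff n f := coeff_od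
  have Omul : ∀ f g, O (f * g) = O f * g + f * O g := fun f g => by
    simp only [hO, Derivation.leibniz, smul_eq_mul]; ring
  have Oφ : ∀ f, φ (O f) = O (φ f) := fun f => by
    ext1 n; rw [hφ, Oc, Oc, hφ]; split_ifs <;> simp
  set E1 := O E with hE1
  set E0 := E + E1 with hE0
  have E0co : ∀ n, coeff n E0 = if n % 2 = 0 then e n else 0 := fun n => by
    rw [hE0, map_add, hE1, Oc, hE, coeff_mk]
    split_ifs
    · simp
    · linear_combination (e n) * two0
  have HE1 : Hom E1 := fun n => by
    rw [hE1, Oc]; split_ifs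
    · exact MvPolynomial.isWeightedHomogeneous_zero _ _ _
    · exact HE n
  have HE0 : Hom E0 := HE.add HE1
  have c0 : coeff 0 E0 = 1 := by rw [E0co]; rfl
  obtain ⟨W, hW⟩ : ∃ W, E0 * W = 1 :=
    ⟨invOfUnit E0 1, mul_invOfUnit E0 1 (by simpa using c0)⟩
  have HW : Hom W := HE0.inv c0 hW
  have OE0 : O E0 = 0 := by ext1 n; rw [Oc, E0co]; split_ifs <;> simp
  have OE1 : O E1 = E1 := by ext1 n; rw [Oc, hE1, Oc]; split_ifs <;> simp
  have O1 : O 1 = 0 := by simp [hO]
  have OW : O W = 0 := by
    have := Omul E0 W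
    rw [hW, O1, OE0] at this
    linear_combination (-O W) * hW - W * this
  set U := E1 * W with hU
  have OU : O U = U := by rw [hU, Omul, OE1, OW]; ring
  have φE1 : φ E1 = E1 * H ^ 2 := by
    rw [hE1, Oφ, φE]
    have := Omul E H
    rw [hEH, O1] at this
    linear_combination (-O H) * hEH - H * this - (O E * H ^ 2) * two0'
  have φE0 : φ E0 = E0 * H ^ 2 := by
    rw [hE0, map_add, φE, φE1]; linear_combination (-H) * hEH
  have φU : φ U = U := by
    have := congrArg φ hW
    rw [map_mul, φE0, map_one] at this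
    rw [hU, map_mul, φE1]
    linear_combination (E1 * W) * this - (E1 * H ^ 2 * φ W) * hW
  let δ : ℕ → R := fun j => coeff (2 * (j + 1)) (E + H)
  let x : ℕ → R := fun j => if j % 2 = 0 then coeff (j + 1) U else e (j + 1)
  set J := Ideal.span (Set.range δ) with hJ
  have J1 : ∀ n, coeff n (E0 + φ E0) ∈ J := by
    intro n
    rw [map_add, hφ, E0co]
    split_ifs with hn
    · rcases n with _ | n
      · simp only [e, map_one]; rw [show (1 + 1 : R) = 0 by linear_combination two0]; exact J.zero_mem
      · refine Ideal.subset_span ⟨n / 2, ?_⟩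
        simp only [δ]
        rw [show 2 * (n / 2 + 1) = n + 1 by omega, map_add, hE, coeff_mk, hw]
    · simp
  have J2 : ∀ n, coeff n (E * E + 1) ∈ J := by
    intro n
    have : E * E + 1 = (E0 + φ E0) * (W * E ^ 2) := by
      rw [φE0]
      linear_combination (-E ^ 2 - H ^ 2 * E ^ 2) * hW - (E * H + 1) * hEH
    rw [this]; exact coeff_mem J1 _ n
  have J3 : ∀ k, e (k + 1) ^ 2 ∈ J := fun k => by
    have := J2 (2 * (k + 1))
    rwa [map_add, coeff_sq, coeff_one, if_neg (by omega), add_zero, hE, coeff_mk] at this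
  have J4 : ∀ n, coeff n (E + H) ∈ J := by
    intro n
    have : E + H = (E * E + 1) * H := by linear_combination (-E) * hEH
    rw [this]; exact coeff_mem J2 _ n
  refine ⟨x, δ, fun j => ?_, fun j => (HE.add HH) _, hinv, fun j hj => ?_, fun j => ?_,
    fun j => ?_, fun r => ?_, ?_⟩
  · simp only [x]; split_ifs
    · exact (HE1.mul HW) _
    · simpa [hE] using HE (j + 1)
  · simp only [x, if_pos hj]; rw [← hφ, φU]
  · simp only [x, δ]
    rw [if_neg (by omega), hw, show 2 * j + 1 + 1 = 2 * (j + 1) by ring, map_add, hE, coeff_mk]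
    linear_combination (-e (2 * (j + 1))) * two0
  · simp only [x]; split_ifs
    · let J' : Ideal R := J.comap (frobenius R 2)
      have : coeff (j + 1) U ∈ J' := by
        refine coeff_mem (fun n => ?_) W _
        rw [hE1, Oc]; split_ifs with hn
        · exact J'.zero_mem
        · obtain ⟨k, rfl⟩ : ∃ k, n = k + 1 := ⟨n - 1, by omega⟩
          rw [hE, coeff_mk]; exact J3 k
      exact this
    · exact J3 j
  · have : (Ideal.Quotient.mkₐ (ZMod 2) J).comp w = Ideal.Quotient.mkₐ (ZMod 2) J := by
      apply MvPolynomial.algHom_ext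
      intro k
      have := J4 (k + 1)
      rw [map_add, hE, coeff_mk, ← hw] at this
      simp only [AlgHom.comp_apply, Ideal.Quotient.mkₐ_eq_mk]
      rw [Ideal.Quotient.eq]
      convert this using 1
      simp only [e]; linear_combination (-MvPolynomial.X k) * two0
    have h1 := AlgHom.congr_fun this r
    simp only [AlgHom.comp_apply, Ideal.Quotient.mkₐ_eq_mk] at h1
    rw [Ideal.Quotient.eq] at h1
    convert h1 using 1
    linear_combination r * two0
  · rw [eq_top_iff, ← MvPolynomial.adjoin_range_X, Algebra.adjoin_le_iff]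
    rintro _ ⟨k, rfl⟩
    set A := Algebra.adjoin (ZMod 2) (Set.range x)
    have hxA : ∀ j, x j ∈ A := fun j => Algebra.subset_adjoin ⟨j, rfl⟩
    have a0 : ∀ n, coeff n E0 ∈ A := fun n => by
      rw [E0co]; split_ifs with hn
      · rcases n with _ | n
        · exact A.one_mem
        · have := hxA n
          simp only [x] at this
          rwa [if_neg (by omega)] at this
      · exact A.zero_mem
    have a1 : ∀ n, coeff n U ∈ A := fun n => by
      rw [← OU, Oc]; split_ifs with hn
      · exact A.zero_mem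
      · obtain ⟨m, rfl⟩ : ∃ m, n = m + 1 := ⟨n - 1, by omega⟩
        have := hxA m
        simp only [x] at this
        rwa [if_pos (by omega)] at this
    have : E = E0 + U * E0 := by
      rw [hU]; linear_combination (-E1) * hW + hE0.symm - E1 * two0'
    have h2 := congrArg (coeff (k + 1)) this
    rw [hE, coeff_mk, map_add, coeff_mul] at h2
    change e (k + 1) ∈ A
    rw [h2]
    exact A.add_mem (a0 _) (A.sum_mem fun p _ => A.mul_mem (a1 _) (a0 _))

end Pool.Agent.H.MP_628479_al
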