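import Pool.Agent.H.MP_628479_al.A

namespace Pool.Agent.H.MP_628479_al
open Finset MvPolynomial

abbrev F := ZMod 2
abbrev Ix := (ℕ →₀ ℕ) × Finset ℕ

noncomputable def DD (δ : ℕ → R) (β : ℕ →₀ ℕ) : R := β.prod (fun j c => δ j ^ c)

noncomputable def vv (x δ : ℕ → R) (p : Ix) : R := DD δ p.1 * ∏ j ∈ p.2, x j

noncomputable def KK (x δ : ℕ → R) (S : Set Ix) : Submodule F R := Submodule.span F (vv x δ '' S)

theorem DD_add (δ : ℕ → R) (a b : ℕ →₀ ℕ) : DD δ (a + b) = DD δ a * DD δ b :=
  Finsupp.prod_add_index' (fun _ => pow_zero _) (fun _ _ _ => pow_add _ _ _)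

theorem DD_single (δ : ℕ → R) (j : ℕ) : DD δ (Finsupp.single j 1) = δ j := by
  simp [DD]

theorem DD_zero (δ : ℕ → R) : DD δ 0 = 1 := by simp [DD]

noncomputable def Tr (m : ℕ) : R →ₗ[F] R := ∑ n ∈ range m, weightedHomogeneousComponent wt n

theorem coeff_Tr (m : ℕ) (t : R) (d : ℕ →₀ ℕ) :
    coeff d (Tr m t) = if Finsupp.weight wt d < m then coeff d t else 0 := by
  simp only [Tr, LinearMap.coe_sum, Finset.sum_apply, coeff_sum,
    coeff_weightedHomogeneousComponent]
  rw [Finset.sum_ite_eq]; simp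

theorem Tr_hom {t : R} {n : ℕ} (h : WH t n) (m : ℕ) : Tr m t = if n < m then t else 0 := by
  ext d
  rw [coeff_Tr]
  by_cases hd : coeff d t = 0
  · split_ifs <;> simp [hd]
  · rw [h hd]; split_ifs <;> simp

theorem Tr_big (t : R) : ∃ m0, ∀ m, m0 ≤ m → Tr m t = t := by
  refine ⟨weightedTotalDegree wt t + 1, fun m hm => ?_⟩
  ext d
  rw [coeff_Tr]
  split_ifs with h
  · rfl
  · by_contra h0
    have := le_weightedTotalDegree wt (mem_support_iff.2 (Ne.symm h0))
    omega

theorem Tr_mul {t : R} {n m : ℕ} (h : WH t n) (hm : m ≤ n) (r : R) : Tr m (t * r) = 0 := by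
  ext d
  rw [coeff_Tr]
  split_ifs with hd
  · rw [coeff_mul, coeff_zero]
    refine sum_eq_zero fun p hp => ?_
    have hp' := HasAntidiagonal.mem_antidiagonal.1 hp
    by_cases h1 : coeff p.1 t = 0
    · simp [h1]
    · have := h h1
      rw [← hp', map_add] at hd
      omega
  · rfl

theorem fin_wt (m : ℕ) : {d : ℕ →₀ ℕ | Finsupp.weight wt d < m}.Finite := by
  refine (Finset.Icc (0 : ℕ →₀ ℕ) (∑ k ∈ range m, Finsupp.single k m)).finite_toSet.subset ?_
  intro d hd
  simp only [Set.mem_ofPred_eq] at hd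
  simp only [coe_Icc, Set.mem_Icc, zero_le, true_and]
  intro k
  have h1 := Finsupp.le_weight wt (s := k) (by simp [wt]) d
  rw [Finsupp.finsetSum_apply]
  by_cases hk : k < m
  · rw [sum_eq_single k (fun b _ hb => by simp [hb.symm]) (by simp [hk])]
    simp; omega
  · by_cases h0 : d k = 0
    · simp [h0]
    · have := Finsupp.le_weight_of_ne_zero' wt h0
      simp only [wt] at this
      omega

variable {w : R →ₐ[F] R} {x δ : ℕ → R}

theorem DD_hom (h : Data w x δ) (β : ℕ →₀ ℕ) : ∃ n, β.degree ≤ n ∧ WH (DD δ β) n := by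
  refine ⟨∑ j ∈ β.support, β j • (2 * (j + 1)), ?_, ?_⟩
  · rw [Finsupp.degree_apply]
    exact sum_le_sum fun j _ => by simp only [smul_eq_mul]; nlinarith
  · exact IsWeightedHomogeneous.prod _ _ _ fun j _ => (h.hδ j).pow _

theorem vv_hom (h : Data w x δ) (p : Ix) : ∃ n, WH (vv x δ p) n := by
  obtain ⟨n, -, hn⟩ := DD_hom h p.1
  exact ⟨_, hn.mul (IsWeightedHomogeneous.prod _ _ _ fun j _ => h.hx j)⟩

theorem Tr_KK (h : Data w x δ) (S : Set Ix) (m : ℕ) {t : R} (ht : t ∈ KK x δ S) :
    Tr m t ∈ KK x δ S := by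
  have : KK x δ S ≤ (KK x δ S).comap (Tr m) := by
    refine Submodule.span_le.2 ?_
    rintro _ ⟨p, hp, rfl⟩
    obtain ⟨n, hn⟩ := vv_hom h p
    simp only [SetLike.mem_coe, Submodule.mem_comap]
    rw [Tr_hom hn]
    split_ifs
    · exact Submodule.subset_span ⟨p, hp, rfl⟩
    · exact Submodule.zero_mem _
  exact this ht

theorem split0 (h : Data w x δ) (r : R) :
    r ∈ Submodule.span F (Set.range fun C : Finset ℕ => ∏ j ∈ C, x j) ⊔
      (Ideal.span (Set.range δ)).restrictScalars F := by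
  set P := Submodule.span F (Set.range fun C : Finset ℕ => ∏ j ∈ C, x j) ⊔
      (Ideal.span (Set.range δ)).restrictScalars F with hP
  have key : ∀ r ∈ Algebra.adjoin F (Set.range x), ∀ y ∈ P, r * y ∈ P := by
    intro r hr
    induction hr using Algebra.adjoin_induction with
    | mem r hr =>
      obtain ⟨j, rfl⟩ := hr
      have : P ≤ P.comap (LinearMap.mulLeft F (x j)) := by
        refine sup_le (Submodule.span_le.2 ?_) ?_
        · rintro _ ⟨C, rfl⟩
          simp only [SetLike.mem_coe, Submodule.mem_comap, LinearMap.mulLeft_apply]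
          by_cases hj : j ∈ C
          · refine Submodule.mem_sup_right ?_
            rw [← mul_prod_erase C x hj, ← mul_assoc, ← sq]
            exact Ideal.mul_mem_right _ _ (h.sq j)
          · rw [← prod_insert hj]
            exact Submodule.mem_sup_left (Submodule.subset_span ⟨_, rfl⟩)
        · intro y hy
          exact Submodule.mem_sup_right (Ideal.mul_mem_left _ _ hy)
      exact fun y hy => this hy
    | algebraMap c => intro y hy; rw [← Algebra.smul_def]; exact P.smul_mem c hy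
    | add a b _ _ ha hb => intro y hy; rw [add_mul]; exact P.add_mem (ha y hy) (hb y hy)
    | mul a b _ _ ha hb => intro y hy; rw [mul_assoc]; exact ha _ (hb y hy)
  have := key r (by rw [h.gen]; trivial) 1
    (Submodule.mem_sup_left (Submodule.subset_span ⟨∅, by simp⟩))
  rwa [mul_one] at this

noncomputable def QQ (δ : ℕ → R) (n : ℕ) : Submodule F R :=
  Submodule.span F {t | ∃ β r, Finsupp.degree β = n ∧ t = DD δ β * r}

theorem QQ_mul (n : ℕ) {a b : R} (ha : a ∈ QQ δ n) (hb : b ∈ Ideal.span (Set.range δ)) :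
    a * b ∈ QQ δ (n + 1) := by
  have : QQ δ n ≤ (QQ δ (n + 1)).comap (LinearMap.mulRight F b) := by
    refine Submodule.span_le.2 ?_
    rintro _ ⟨β, r, hβ, rfl⟩
    simp only [SetLike.mem_coe, Submodule.mem_comap, LinearMap.mulRight_apply]
    induction hb using Submodule.span_induction generalizing r with
    | mem y hy =>
      obtain ⟨j, rfl⟩ := hy
      exact Submodule.subset_span ⟨β + Finsupp.single j 1, r, by simp [hβ],
        by rw [DD_add, DD_single]; ring⟩
    | zero => simp
    | add y z _ _ hy hz => rw [mul_add]; exact Submodule.add_mem _ (hy r) (hz r)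
    | smul c y _ hy => rw [smul_eq_mul, ← mul_assoc, mul_assoc _ r c]; exact hy _
  exact this ha

theorem pow_QQ (n : ℕ) {t : R} (ht : t ∈ Ideal.span (Set.range δ) ^ n) : t ∈ QQ δ n := by
  induction n generalizing t with
  | zero => exact Submodule.subset_span ⟨0, t, by simp, by simp [DD_zero]⟩
  | succ n ih =>
    rw [pow_succ] at ht
    exact Submodule.mul_induction_on ht (fun a ha b hb => QQ_mul n (ih ha) hb)
      (fun a b ha hb => Submodule.add_mem _ ha hb)

theorem QQ_step (h : Data w x δ) (n : ℕ) :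
    QQ δ n ≤ KK x δ {p | p.1.degree = n} ⊔ QQ δ (n + 1) := by
  refine Submodule.span_le.2 ?_
  rintro _ ⟨β, r, hβ, rfl⟩
  obtain ⟨s, hs, t, ht, rfl⟩ := Submodule.mem_sup.1 (split0 h r)
  rw [mul_add]
  refine Submodule.add_mem_sup ?_ (QQ_mul n (Submodule.subset_span ⟨β, 1, hβ, by simp⟩) ht)
  have : Submodule.span F (Set.range fun C : Finset ℕ => ∏ j ∈ C, x j) ≤
      (KK x δ {p | p.1.degree = n}).comap (LinearMap.mulLeft F (DD δ β)) := by
    refine Submodule.span_le.2 ?_
    rintro _ ⟨C, rfl⟩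
    exact Submodule.subset_span ⟨(β, C), hβ, rfl⟩
  exact this hs

theorem QQ_KK (h : Data w x δ) (n : ℕ) {t : R} (ht : t ∈ QQ δ n) :
    t ∈ KK x δ {p | n ≤ p.1.degree} := by
  have h1 : ∀ m, QQ δ n ≤ KK x δ {p | n ≤ p.1.degree} ⊔ QQ δ (n + m) := by
    intro m
    induction m with
    | zero => exact le_sup_right
    | succ m ih =>
      refine ih.trans (sup_le le_sup_left ((QQ_step h (n + m)).trans (sup_le_sup ?_ le_rfl)))
      exact Submodule.span_mono (Set.image_mono fun p hp => by
        simp only [Set.mem_ofPred_eq] at hp ⊢; omega)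
  obtain ⟨m, hm⟩ := Tr_big t
  obtain ⟨k, hk, q, hq, hkq⟩ := Submodule.mem_sup.1 (h1 m ht)
  have h2 : QQ δ (n + m) ≤ LinearMap.ker (Tr m) := by
    refine Submodule.span_le.2 ?_
    rintro _ ⟨β, r, hβ, rfl⟩
    obtain ⟨l, hl, hl'⟩ := DD_hom h β
    exact Tr_mul hl' (by omega) r
  rw [← hm m le_rfl, ← hkq, map_add, h2 hq, add_zero]
  exact Tr_KK h _ m hk

noncomputable def enc (p : Ix) : ℕ →₀ ℕ := 2 • p.1 + ∑ j ∈ p.2, Finsupp.single j 1

noncomputable def dec (d : ℕ →₀ ℕ) : Ix :=
  (d.mapRange (· / 2) (by simp), d.support.filter (fun j => d j % 2 = 1))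

theorem enc_apply (p : Ix) (j : ℕ) : enc p j = 2 * p.1 j + if j ∈ p.2 then 1 else 0 := by
  simp [enc, Finsupp.single_apply]

theorem dec_enc (p : Ix) : dec (enc p) = p := by
  refine Prod.ext ?_ ?_
  · ext j
    simp only [dec, Finsupp.mapRange_apply, enc_apply]
    split_ifs <;> omega
  · ext j
    simp only [dec, mem_filter, Finsupp.mem_support_iff, enc_apply]
    split_ifs with hj <;> simp [hj]

theorem dec_hom (h : Data w x δ) (d : ℕ →₀ ℕ) : WH (vv x δ (dec d)) (Finsupp.weight wt d) := by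
  have e1 : vv x δ (dec d) = ∏ j ∈ d.support, (δ j ^ (d j / 2) * x j ^ (d j % 2)) := by
    rw [prod_mul_distrib, vv, dec, DD, Finsupp.prod_mapRange_index (fun _ => pow_zero _),
      prod_filter]
    congr 1
    refine prod_congr rfl fun j _ => ?_
    rcases Nat.mod_two_eq_zero_or_one (d j) with h0 | h0 <;> simp [h0]
  have e2 : Finsupp.weight wt d =
      ∑ j ∈ d.support, ((d j / 2) • (2 * (j + 1)) + (d j % 2) • (j + 1)) := by
    rw [Finsupp.weight_apply, Finsupp.sum]
    refine sum_congr rfl fun j _ => ?_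
    simp only [wt, smul_eq_mul]
    conv_lhs => rw [← Nat.div_add_mod (d j) 2]
    ring
  rw [e1, e2]
  exact IsWeightedHomogeneous.prod _ _ _ fun j _ => ((h.hδ j).pow _).mul ((h.hx j).pow _)

theorem lin_vv (h : Data w x δ) : LinearIndependent F (vv x δ) := by
  let Ψ : R →ₗ[F] R := (basisMonomials ℕ F).constr F (fun d => vv x δ (dec d))
  have hΨ : ∀ d, Ψ (monomial d 1) = vv x δ (dec d) := fun d => by
    have := (basisMonomials ℕ F).constr_basis F (fun d => vv x δ (dec d)) d
    simpa using this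
  have hcomm : ∀ m t, Tr m (Ψ t) = Ψ (Tr m t) := by
    intro m
    have : (Tr m).comp Ψ = Ψ.comp (Tr m) := by
      refine (basisMonomials ℕ F).ext fun d => ?_
      simp only [LinearMap.comp_apply, coe_basisMonomials]
      rw [hΨ, Tr_hom (dec_hom h d), Tr_hom (isWeightedHomogeneous_monomial wt d 1 rfl)]
      split_ifs <;> simp [hΨ]
    exact fun t => LinearMap.congr_fun this t
  have hsurj : Function.Surjective Ψ := by
    intro t
    have h1 := QQ_KK h 0 (pow_QQ 0 (t := t) (by simp))
    have : KK x δ {p | 0 ≤ p.1.degree} ≤ LinearMap.range Ψ := by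
      refine Submodule.span_le.2 ?_
      rintro _ ⟨p, -, rfl⟩
      exact ⟨monomial (enc p) 1, by rw [hΨ, dec_enc]⟩
    exact this h1
  have hinj : LinearMap.ker Ψ = ⊥ := by
    rw [LinearMap.ker_eq_bot']
    intro t ht
    obtain ⟨m, hm⟩ := Tr_big t
    let V := restrictSupport F {d : ℕ →₀ ℕ | Finsupp.weight wt d < m}
    have hV : ∀ s, s ∈ V ↔ Tr m s = s := by
      intro s
      rw [mem_restrictSupport_iff]
      constructor
      · intro hs
        ext d
        rw [coeff_Tr]
        split_ifs with hd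
        · rfl
        · by_contra h0
          exact hd (hs (mem_coe.2 (mem_support_iff.2 (Ne.symm h0))))
      · intro hs d hd
        have := mem_support_iff.1 (mem_coe.1 hd)
        rw [← hs, coeff_Tr] at this
        by_contra h0
        exact this (if_neg h0)
    have hTT : ∀ s, Tr m (Tr m s) = Tr m s := fun s => by
      ext d; simp only [coeff_Tr]; split_ifs <;> rfl
    have : Finite {d : ℕ →₀ ℕ | Finsupp.weight wt d < m} := (fin_wt m).to_subtype
    have : FiniteDimensional F V := Module.Finite.of_basis (basisRestrictSupport F _)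
    have hmap : ∀ s ∈ V, Ψ s ∈ V := fun s hs => by
      rw [hV] at hs ⊢; rw [hcomm, hs]
    have hs : Function.Surjective (Ψ.restrict hmap) := by
      rintro ⟨s, hs⟩
      obtain ⟨u, rfl⟩ := hsurj s
      refine ⟨⟨Tr m u, (hV _).2 (hTT u)⟩, Subtype.ext ?_⟩
      simp only [LinearMap.coe_restrict_apply]
      rw [← hcomm, (hV _).1 hs]
    have hi := LinearMap.injective_iff_surjective.2 hs
    have := hi (a₁ := ⟨t, (hV t).2 (hm m le_rfl)⟩) (a₂ := 0) (Subtype.ext (by simpa using ht))
    exact congrArg Subtype.val this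
  have h1 := ((basisMonomials ℕ F).linearIndependent.comp enc
    (Function.LeftInverse.injective dec_enc)).map' Ψ hinj
  have e : vv x δ = Ψ ∘ (basisMonomials ℕ F) ∘ enc := by
    ext1 p
    simp [hΨ, dec_enc]
  rw [e]; exact h1

end Pool.Agent.H.MP_628479_al
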