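import Pool.Agent.H.MP_628479_al.B

namespace Pool.Agent.H.MP_628479_al
open Finset MvPolynomial

variable {w : R →ₐ[F] R} {x δ : ℕ → R}

def SS (M N n : ℕ) : Set Ix :=
  {p | (∀ j, M ≤ j → p.1 j = 0) ∧ (∀ j, N ≤ j → 2 * j + 1 ∉ p.2) ∧ n ≤ p.1.degree}

theorem KK_mono {S T : Set Ix} (h : S ⊆ T) : KK x δ S ≤ KK x δ T :=
  Submodule.span_mono (Set.image_mono h)

theorem memK {S : Set Ix} {p : Ix} (hp : p ∈ S) : vv x δ p ∈ KK x δ S :=
  Submodule.subset_span ⟨p, hp, rfl⟩

theorem SS_mono {M N n M' N' n' : ℕ} (h1 : M ≤ M') (h2 : N ≤ N') (h3 : n' ≤ n) :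
    SS M N n ⊆ SS M' N' n' := fun p hp =>
  ⟨fun j hj => hp.1 j (by omega), fun j hj => hp.2.1 j (by omega), h3.trans hp.2.2⟩

theorem wδ (h : Data w x δ) (j : ℕ) : w (δ j) = δ j := by
  have h1 := h.od j
  have h2 := congrArg w h1
  rw [h.inv, map_add, h1] at h2
  linear_combination -h2 - (δ j) * two0

theorem wDD (h : Data w x δ) (β : ℕ →₀ ℕ) : w (DD δ β) = DD δ β := by
  simp [DD, Finsupp.prod, map_prod, wδ h]

theorem vv_δ (j : ℕ) (p : Ix) : δ j * vv x δ p = vv x δ (p.1 + Finsupp.single j 1, p.2) := by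
  simp only [vv, DD_add, DD_single]; ring

theorem vv_x (j : ℕ) (p : Ix) (hj : j ∉ p.2) :
    x j * vv x δ p = vv x δ (p.1, insert j p.2) := by
  simp only [vv, prod_insert hj]; ring

theorem mul_KK (a : R) {S T : Set Ix} (h : ∀ p ∈ S, a * vv x δ p ∈ KK x δ T) {t : R}
    (ht : t ∈ KK x δ S) : a * t ∈ KK x δ T := by
  have : KK x δ S ≤ (KK x δ T).comap (LinearMap.mulLeft F a) := by
    refine Submodule.span_le.2 ?_
    rintro _ ⟨p, hp, rfl⟩
    exact h p hp
  exact this ht

theorem δ_SS {M N j : ℕ} (hj : j < M) {t : R} (ht : t ∈ KK x δ (SS M N 0)) :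
    δ j * t ∈ KK x δ (SS M N 0) := by
  refine mul_KK _ (fun p hp => ?_) ht
  rw [vv_δ]
  refine memK ⟨fun i hi => ?_, hp.2.1, Nat.zero_le _⟩
  simp [hp.1 i hi, Finsupp.single_apply]; omega

theorem w_SS (h : Data w x δ) {M N : ℕ} (hNM : N ≤ M) {t : R} (ht : t ∈ KK x δ (SS M N 0)) :
    w t ∈ KK x δ (SS M N 0) := by
  have : KK x δ (SS M N 0) ≤ (KK x δ (SS M N 0)).comap w.toLinearMap := by
    refine Submodule.span_le.2 ?_
    rintro _ ⟨p, hp, rfl⟩
    simp only [SetLike.mem_coe, Submodule.mem_comap, AlgHom.toLinearMap_apply]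
    have e : w (vv x δ p) = DD δ p.1 * ∏ j ∈ p.2, (x j + (w (x j) - x j)) := by
      simp [vv, wDD h, map_prod]
    rw [e, prod_add, mul_sum]
    refine Submodule.sum_mem _ fun T hT => ?_
    have hT' := mem_powerset.1 hT
    have h0 : vv x δ (p.1, T) ∈ KK x δ (SS M N 0) :=
      memK ⟨hp.1, fun j hj hh => hp.2.1 j hj (hT' hh), Nat.zero_le _⟩
    have key : ∀ U : Finset ℕ, U ⊆ p.2 →
        (∏ j ∈ U, (w (x j) - x j)) * vv x δ (p.1, T) ∈ KK x δ (SS M N 0) := by
      intro U
      induction U using Finset.induction_on with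
      | empty => intro _; simpa using h0
      | insert j U hj ih =>
        intro hU
        rw [prod_insert hj, mul_assoc]
        have ih' := ih ((subset_insert _ _).trans hU)
        rcases Nat.mod_two_eq_zero_or_one j with h2 | h2
        · rw [h.ev j h2]; simp
        · obtain ⟨i, rfl⟩ : ∃ i, j = 2 * i + 1 := ⟨j / 2, by omega⟩
          rw [h.od i, add_sub_cancel_left]
          refine δ_SS ?_ ih'
          by_contra hi
          exact hp.2.1 i (by omega) (hU (mem_insert_self _ _))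
    have := key (p.2 \ T) sdiff_subset
    simp only [vv] at this
    rwa [mul_comm, mul_assoc] at this
  exact this ht

theorem uniq (h : Data w x δ) (N : ℕ) {c a b : R} (hc : c ∈ KK x δ (SS N N 0))
    (ha : a ∈ KK x δ (SS (N + 1) N 0)) (hb : b ∈ KK x δ (SS (N + 1) N 0))
    (h0 : c + δ N * a + x (2 * N + 1) * b = 0) : c = 0 ∧ a = 0 ∧ b = 0 := by
  have hl := lin_vv h
  have m1 : δ N * a ∈ KK x δ {p | 2 * N + 1 ∉ p.2 ∧ p.1 N ≠ 0} :=
    mul_KK _ (fun p hp => by
      rw [vv_δ]; exact memK ⟨hp.2.1 N le_rfl, by simp⟩) ha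
  have m2 : x (2 * N + 1) * b ∈ KK x δ {p | 2 * N + 1 ∈ p.2} :=
    mul_KK _ (fun p hp => by
      rw [vv_x _ _ (hp.2.1 N le_rfl)]
      exact memK (mem_insert_self _ _)) hb
  have m0 : c ∈ KK x δ {p | 2 * N + 1 ∉ p.2 ∧ p.1 N = 0} :=
    KK_mono (fun p hp => And.intro (hp.2.1 N le_rfl) (hp.1 N le_rfl)) hc
  have d1 := hl.disjoint_span_image (s := {p | 2 * N + 1 ∈ p.2}) (t := {p | 2 * N + 1 ∉ p.2})
    (Set.disjoint_left.2 fun p h1 h2 => h2 h1)
  have d2 := hl.disjoint_span_image (s := {p | 2 * N + 1 ∉ p.2 ∧ p.1 N = 0})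
    (t := {p | 2 * N + 1 ∉ p.2 ∧ p.1 N ≠ 0}) (Set.disjoint_left.2 fun p h1 h2 => h2.2 h1.2)
  have z2 : x (2 * N + 1) * b = 0 := by
    refine Submodule.disjoint_def.1 d1 _ m2 ?_
    rw [eq_neg_of_add_eq_zero_right h0]
    exact Submodule.neg_mem _ (Submodule.add_mem _ (KK_mono (fun p hp => hp.1) m0)
      (KK_mono (fun p hp => hp.1) m1))
  rw [z2, add_zero] at h0
  have z0 : c = 0 := by
    refine Submodule.disjoint_def.1 d2 _ m0 ?_
    rw [eq_neg_of_add_eq_zero_left h0]
    exact Submodule.neg_mem _ m1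
  rw [z0, zero_add] at h0
  have n1 : δ N ≠ 0 := by
    have := hl.ne_zero (Finsupp.single N 1, ∅)
    simpa [vv, DD_single] using this
  have n2 : x (2 * N + 1) ≠ 0 := by
    have := hl.ne_zero (0, {2 * N + 1})
    simpa [vv, DD_zero] using this
  exact ⟨z0, (mul_eq_zero.1 h0).resolve_left n1, (mul_eq_zero.1 z2).resolve_left n2⟩

theorem decomp (N n : ℕ) {t : R} (ht : t ∈ KK x δ (SS (N + 1) (N + 1) (n + 1))) :
    ∃ c ∈ KK x δ (SS N N (n + 1)), ∃ a ∈ KK x δ (SS (N + 1) N n),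
      ∃ b ∈ KK x δ (SS (N + 1) N n), t = c + δ N * a + x (2 * N + 1) * b := by
  induction ht using Submodule.span_induction with
  | mem t ht =>
    obtain ⟨p, hp, rfl⟩ := ht
    by_cases h1 : 2 * N + 1 ∈ p.2
    · refine ⟨0, Submodule.zero_mem _, 0, Submodule.zero_mem _, vv x δ (p.1, p.2.erase (2 * N + 1)),
        memK ⟨hp.1, fun j hj hh => ?_, by have := hp.2.2; simp only; omega⟩, ?_⟩
      · simp only [mem_erase] at hh
        exact hp.2.1 j (by omega) hh.2
      · rw [vv_x _ _ (by simp), insert_erase h1]; simp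
    have h2 : ∀ j, N ≤ j → 2 * j + 1 ∉ p.2 := fun j hj => by
      rcases Nat.eq_or_lt_of_le hj with rfl | hj
      · exact h1
      · exact hp.2.1 j hj
    by_cases h3 : p.1 N = 0
    · refine ⟨vv x δ p, memK ⟨fun j hj => ?_, h2, hp.2.2⟩, 0,
        Submodule.zero_mem _, 0, Submodule.zero_mem _, by simp⟩
      rcases Nat.eq_or_lt_of_le hj with rfl | hj
      · exact h3
      · exact hp.1 j hj
    · have e : p.1 - Finsupp.single N 1 + Finsupp.single N 1 = p.1 :=
        tsub_add_cancel_of_le (Finsupp.single_le_iff.2 (by omega))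
      refine ⟨0, Submodule.zero_mem _, vv x δ (p.1 - Finsupp.single N 1, p.2),
        memK ⟨fun j hj => ?_, h2, ?_⟩, 0, Submodule.zero_mem _, ?_⟩
      · simp [hp.1 j hj]
      · have := hp.2.2
        rw [← e, map_add, Finsupp.degree_single] at this
        simp only; omega
      · rw [vv_δ]; simp [e]
  | zero => exact ⟨0, Submodule.zero_mem _, 0, Submodule.zero_mem _, 0, Submodule.zero_mem _,
      by simp⟩
  | add s t _ _ hs ht =>
    obtain ⟨c, hc, a, ha, b, hb, rfl⟩ := hs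
    obtain ⟨c', hc', a', ha', b', hb', rfl⟩ := ht
    exact ⟨_, Submodule.add_mem _ hc hc', _, Submodule.add_mem _ ha ha', _,
      Submodule.add_mem _ hb hb', by ring⟩
  | smul r s _ hs =>
    obtain ⟨c, hc, a, ha, b, hb, rfl⟩ := hs
    exact ⟨_, Submodule.smul_mem _ r hc, _, Submodule.smul_mem _ r ha, _,
      Submodule.smul_mem _ r hb, by simp [smul_add]⟩

theorem homot (h : Data w x δ) (P : Submodule F R) (n : ℕ)
    (hP : ∀ β r, n ≤ Finsupp.degree β → DD δ β * (r + w r) ∈ P) (N : ℕ) {t : R}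
    (ht : t ∈ KK x δ (SS N N (n + 1))) (hw : w t = t) : t ∈ P := by
  have hP' : ∀ M N' (g a : R), a ∈ KK x δ (SS M N' n) → a * g + w (a * g) ∈ P := by
    intro M N' g a ha
    have : KK x δ (SS M N' n) ≤
        P.comap ((LinearMap.id + w.toLinearMap).comp (LinearMap.mulRight F g)) := by
      refine Submodule.span_le.2 ?_
      rintro _ ⟨p, hp, rfl⟩
      have := hP p.1 ((∏ j ∈ p.2, x j) * g) hp.2.2
      simp only [SetLike.mem_coe, Submodule.mem_comap, LinearMap.comp_apply,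
        LinearMap.mulRight_apply, LinearMap.add_apply, LinearMap.id_apply,
        AlgHom.toLinearMap_apply, vv]
      rw [mul_assoc, map_mul, wDD h, ← mul_add]
      exact this
    exact this ha
  induction N generalizing t with
  | zero =>
    have : SS 0 0 (n + 1) = ∅ := by
      ext p
      simp only [Set.mem_empty_iff_false, iff_false]
      intro hp
      have h0 : p.1 = 0 := by ext j; exact hp.1 j (Nat.zero_le _)
      have := hp.2.2
      rw [h0] at this; simp at this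
    rw [this, KK, Set.image_empty, Submodule.span_empty, Submodule.mem_bot] at ht
    rw [ht]; exact P.zero_mem
  | succ N ih =>
    obtain ⟨c, hc, a, ha, b, hb, rfl⟩ := decomp N n ht
    have hc0 := KK_mono (SS_mono le_rfl le_rfl (Nat.zero_le _)) hc
    have ha0 := KK_mono (SS_mono le_rfl le_rfl (Nat.zero_le _)) ha
    have hb0 := KK_mono (SS_mono le_rfl le_rfl (Nat.zero_le _)) hb
    have wa := w_SS h (Nat.le_succ N) ha0
    have wb := w_SS h (Nat.le_succ N) hb0
    simp only [map_add, map_mul, wδ h, h.od] at hw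
    obtain ⟨u1, u2, u3⟩ := uniq h N (Submodule.sub_mem _ (w_SS h le_rfl hc0) hc0)
      (Submodule.sub_mem _ (Submodule.add_mem _ wa wb) ha0) (Submodule.sub_mem _ wb hb0)
      (by linear_combination hw)
    have p1 := ih hc (sub_eq_zero.1 u1)
    have p2 := hP' _ _ (x (2 * N + 1) + δ N) a ha
    have e : c + δ N * a + x (2 * N + 1) * b =
        c + (a * (x (2 * N + 1) + δ N) + w (a * (x (2 * N + 1) + δ N))) := by
      simp only [map_add, map_mul, wδ h, h.od]
      linear_combination (-x (2 * N + 1)) * u2 + (x (2 * N + 1)) * u3 +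
        (x (2 * N + 1) * b - x (2 * N + 1) * a - w a * δ N) * two0
    rw [e]
    exact P.add_mem p1 p2

theorem exN (n : ℕ) {t : R} (ht : t ∈ KK x δ {p | n ≤ p.1.degree}) :
    ∃ N, t ∈ KK x δ (SS N N n) := by
  induction ht using Submodule.span_induction with
  | mem t ht =>
    obtain ⟨p, hp, rfl⟩ := ht
    refine ⟨(p.1.support ∪ p.2).sup id + 1, Submodule.subset_span ⟨p, ⟨fun j hj => ?_,
      fun j hj hh => ?_, hp⟩, rfl⟩⟩
    · by_contra h0
      have := le_sup (f := id) (mem_union_left p.2 (Finsupp.mem_support_iff.2 h0))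
      simp only [id] at this hj; omega
    · have := le_sup (f := id) (mem_union_right p.1.support hh)
      simp only [id] at this hj; omega
  | zero => exact ⟨0, Submodule.zero_mem _⟩
  | add s t _ _ hs ht =>
    obtain ⟨N, hN⟩ := hs
    obtain ⟨M, hM⟩ := ht
    exact ⟨N + M, Submodule.add_mem _ (KK_mono (SS_mono (by omega) (by omega) le_rfl) hN)
      (KK_mono (SS_mono (by omega) (by omega) le_rfl) hM)⟩
  | smul r s _ hs =>
    obtain ⟨N, hN⟩ := hs
    exact ⟨N, Submodule.smul_mem _ r hN⟩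

theorem main (h : Data w x δ) (P : Submodule F R) (n : ℕ)
    (hP : ∀ β r, n ≤ Finsupp.degree β → DD δ β * (r + w r) ∈ P) {t : R}
    (ht : t ∈ Ideal.span (Set.range δ) ^ (n + 1)) (hw : w t = t) : t ∈ P := by
  obtain ⟨N, hN⟩ := exN _ (QQ_KK h _ (pow_QQ _ ht))
  exact homot h P n hP N hN hw

end Pool.Agent.H.MP_628479_al
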